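import Pool.Agent.Helper93.PL.St

/-!
# Project PL, statement Nus: logarithms of the values
-/

set_option autoImplicit false

namespace Pool.Agent.Helper71.PL

open Pool.Agent.Helper61.PV Finset

private theorem exl (a b δ : ℝ) (hδ : 0 < δ) :
    ∃ l₀ : ℝ, 1 ≤ l₀ ∧ ∀ l : ℝ, l₀ ≤ l → a ≤ δ * l ∧ b + Real.log l ≤ δ * l := by
  have h1 : ∀ᶠ l : ℝ in Filter.atTop, ‖Real.log l‖ ≤ δ / 2 * ‖(id l : ℝ)‖ :=
    (Real.isLittleO_log_id_atTop).def (by positivity)
  have h2 : ∀ᶠ l : ℝ in Filter.atTop, a / δ ≤ l := Filter.eventually_ge_atTop _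
  have h3 : ∀ᶠ l : ℝ in Filter.atTop, 2 * b / δ ≤ l := Filter.eventually_ge_atTop _
  obtain ⟨l₁, hl₁⟩ := Filter.eventually_atTop.1 (h1.and (h2.and h3))
  refine ⟨max 1 l₁, le_max_left _ _, fun l hl => ?_⟩
  obtain ⟨g1, g2, g3⟩ := hl₁ l (le_trans (le_max_right _ _) hl)
  have hl1 : 1 ≤ l := le_trans (le_max_left _ _) hl
  rw [div_le_iff₀ hδ] at g2 g3
  have g4 : Real.log l ≤ δ / 2 * l := by
    have := le_trans (Real.le_norm_self _) g1
    simpa [abs_of_nonneg (le_trans zero_le_one hl1)] using this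
  constructor
  · linarith
  · nlinarith

theorem hNus : Pool.Agent.Helper93.PL.StNus := by
  intro μ x κ δ hμ hμx hκ hκ1 hδ hδ1
  have hx : 0 < x := lt_of_lt_of_le hμ hμx
  obtain ⟨l₀, hl₀1, hl₀⟩ := exl (-Real.log μ) (Real.log x) (δ / 2) (by positivity)
  set T : ℝ := max (Real.exp l₀) (max (2 * Real.log (4 / κ) / δ) (max (2 * Real.log 4 / δ)
    ((1 + 8 / κ) / μ))) with hT
  obtain ⟨H₀, hH₀⟩ := Filter.eventually_atTop.1
    ((Real.tendsto_log_atTop.comp tendsto_natCast_atTop_atTop).eventually_ge_atTop T)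
  refine ⟨H₀, fun H hH d hd m hm1 hm2 => ?_⟩
  have hL := hH₀ H hH
  simp only [Function.comp_apply] at hL
  set L : ℝ := Real.log H with hLdef
  have t1 : Real.exp l₀ ≤ L := le_trans (le_max_left _ _) hL
  have t2 : 2 * Real.log (4 / κ) / δ ≤ L :=
    le_trans (le_trans (le_max_left _ _) (le_max_right _ _)) hL
  have t3 : 2 * Real.log 4 / δ ≤ L :=
    le_trans (le_trans (le_trans (le_max_left _ _) (le_max_right _ _)) (le_max_right _ _)) hL
  have t4 : (1 + 8 / κ) / μ ≤ L :=
    le_trans (le_trans (le_trans (le_max_right _ _) (le_max_right _ _)) (le_max_right _ _)) hL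
  rw [div_le_iff₀ hδ] at t2 t3
  rw [div_le_iff₀ hμ] at t4
  have hL0 : 0 < L := lt_of_lt_of_le (Real.exp_pos _) t1
  have hH1 : (1 : ℝ) ≤ H := by
    by_contra hc
    push Not at hc
    have : H = 0 := by
      have : H < 1 := by exact_mod_cast hc
      omega
    rw [hLdef, this] at hL0
    simp at hL0
  have hd' : (1 : ℝ) ≤ d := by exact_mod_cast hd
  have hΛ : 0 < (d : ℝ) + L := by linarith
  set l : ℝ := Real.log (d + L) with hl
  have hl1 : l₀ ≤ l := by
    rw [hl, Real.le_log_iff_exp_le hΛ]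
    linarith
  have hlone : 1 ≤ l := le_trans hl₀1 hl1
  have hlpos : 0 < l := by linarith
  obtain ⟨q1, q2⟩ := hl₀ l hl1
  set S : ℝ := Sz H d with hS
  have hSe : S = L + d * l := rfl
  have hSΛ : d + L ≤ S := by rw [hSe]; nlinarith
  have hSu : S ≤ (d + L) * l := by rw [hSe]; nlinarith
  have hSL : L ≤ S := by linarith
  have hS0 : 0 < S := by linarith
  have hdl : d * l ≤ S := by rw [hSe]; linarith
  have hm0 : (0 : ℝ) < m := lt_of_lt_of_le (by positivity) hm1
  have hlm1 : Real.log μ + l ≤ Real.log m := by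
    rw [hl, ← Real.log_mul hμ.ne' hΛ.ne']
    apply Real.log_le_log (by positivity)
    nlinarith
  have hlm2 : Real.log m ≤ Real.log x + (l + Real.log l) := by
    have h1 : (m : ℝ) ≤ x * ((d + L) * l) := by nlinarith
    have h2 := Real.log_le_log hm0 h1
    rw [Real.log_mul hx.ne' (by positivity), Real.log_mul hΛ.ne' hlpos.ne'] at h2
    exact h2
  refine ⟨?_, ?_, ?_⟩
  · nlinarith
  · have e1 : Real.log (κ * H * (m : ℝ) ^ d / 4) = L + d * Real.log m - Real.log (4 / κ) := by
      rw [Real.log_div (by positivity) (by norm_num), Real.log_mul (by positivity) (by positivity),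
        Real.log_mul hκ.ne' (by positivity), Real.log_pow, Real.log_div (by norm_num) hκ.ne']
      ring
    rw [e1]
    have e2 : (d : ℝ) * (Real.log μ + l) ≤ d * Real.log m := by gcongr
    have e3 : (d : ℝ) * (-Real.log μ) ≤ δ / 2 * S := by
      calc (d : ℝ) * (-Real.log μ) ≤ d * (δ / 2 * l) := by gcongr
        _ = δ / 2 * (d * l) := by ring
        _ ≤ δ / 2 * S := by gcongr
    have e4 : Real.log (4 / κ) ≤ δ / 2 * S := by nlinarith
    nlinarith
  · have e1 : Real.log (4 * H * (m : ℝ) ^ d) = Real.log 4 + L + d * Real.log m := by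
      rw [Real.log_mul (by positivity) (by positivity), Real.log_mul (by norm_num) (by positivity),
        Real.log_pow]
    rw [e1]
    have e2 : (d : ℝ) * Real.log m ≤ d * (Real.log x + (l + Real.log l)) := by gcongr
    have e3 : (d : ℝ) * (Real.log x + Real.log l) ≤ δ / 2 * S := by
      calc (d : ℝ) * (Real.log x + Real.log l) ≤ d * (δ / 2 * l) := by gcongr
        _ = δ / 2 * (d * l) := by ring
        _ ≤ δ / 2 * S := by gcongr
    have e4 : Real.log 4 ≤ δ / 2 * S := by nlinarith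
    nlinarith

end Pool.Agent.Helper71.PL
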